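import Pool.Agent.H62.S6.Adm

/-!
# Natural labels: the slope of the last label is small or large on the whole event
-/

set_option autoImplicit false

namespace Pool.RPL

open Finset Real
open Pool.Agent.H49.Ent Pool.Agent.H32.Dense Pool.STK Pool.KA Pool.KSAT Pool.K2S Pool.PB Pool.KS6
  Pool.S6C Pool.S6F

/-- Natural labels, with a dichotomy for the slope of the last one, as a claim about an event. -/
def NLT (i₀ : Fin 3) (N Pu : ℕ) (w V T H G : ℕ → ℕ) {J : ℕ} (F : Fam 3 J) (A : F.Ω → Prop) :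
    Prop :=
  ∃ (iu iN : Fin 3) (e n : (Fin 3 → ℤ) × (ℕ × F.ζ) → Fin 3 → ℝ) (z : ℕ → F.Ω → Pln),
    NLc F A i₀ iu iN N Pu w V T H e n z ∧
      (∀ j ≤ N, SnG F A i₀ iu iN (G j) e (z j)) ∧
      ((∀ ω, A ω → |(z N ω).s| ≤ 2) ∨ (∀ ω, A ω → 2 ≤ |(z N ω).s|))

theorem NLT.hered (i₀ : Fin 3) (N Pu : ℕ) (w V T H G : ℕ → ℕ) {J : ℕ} (F : Fam 3 J) :
    Hered (NLT i₀ N Pu w V T H G F) := by
  rintro A B hB ⟨iu, iN, e, n, z, h, h', h''⟩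
  refine ⟨iu, iN, e, n, z, h.sub hB, fun j hj => (h' j hj).sub hB, ?_⟩
  rcases h'' with h'' | h''
  · exact Or.inl fun ω hω => h'' ω (hB _ hω)
  · exact Or.inr fun ω hω => h'' ω (hB _ hω)

/-- **Natural labels**, in the case of the local data, with the dichotomy. -/
theorem nl_two {S : PCl 3} {a R h₁ : ℝ} {i₀ : Fin 3} {c s₂ : ℝ} {r : ℝ → ℝ} {D : Set ℝ}
    {σ : ℝ → Row} (hC : Cs S a R h₁ i₀ c s₂ r D σ) {K : Set ℝ} {W : ℝ → ℝ} {v₁ t : ℚ} {e₁ : ℝ}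
    (hA : Adm σ K W v₁ t e₁) (N : ℕ) (u : ℕ → ℚ) (V T H G : ℕ → ℝ) {g : ℝ}
    (hu : ∀ j < N, u (j + 1) ≤ u j) (hu0 : ∀ j ≤ N, 0 ≤ u j) (hu1 : ∀ j ≤ N, u j ≤ v₁)
    (hg : g < (σ 1).pi) (hV : ∀ j ≤ N, V j < (σ 1).rot (u j))
    (hT : ∀ j ≤ N, T j < (σ 1).th (u j))
    (hVT : ∀ j ≤ N, u j + V j ≤ T j) (huT : ∀ j ≤ N, (u j : ℝ) < T j)
    (turn : ∀ j < N, (σ 1).rot (u j) < (σ 1).pi)
    (hR : ∀ j < N, (σ 1).rot (u j) < T j - u j ∧ (σ 1).rot (u j) < T (j + 1) - u (j + 1))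
    (hH : ∀ j < N, H j < T j - u j - (σ 1).rot (u j) ∧
      H j < T (j + 1) - u (j + 1) - (σ 1).rot (u j))
    (hG0 : ∀ j ≤ N, 0 ≤ G j) (hG1 : ∀ j ≤ N, G j < (σ 1).sN v₁ t)
    (hG2 : ∀ j ≤ N, G j < T j - u j + 7 * e₁) :
    Clp S (fun J F A => ∃ (iu iN : Fin 3) (e n : (Fin 3 → ℤ) × (ℕ × F.ζ) → Fin 3 → ℝ)
      (z : ℕ → F.Ω → Pln),
      NLc F A i₀ iu iN N ⌊g * J⌋₊ (fun j => ⌊(u j : ℝ) * J⌋₊) (fun j => ⌊V j * J⌋₊)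
        (fun j => ⌊T j * J⌋₊) (fun j => ⌊H j * J⌋₊) e n z ∧
      (∀ j ≤ N, SnG F A i₀ iu iN ⌊G j * J⌋₊ e (z j)) ∧
      ((∀ ω, A ω → |(z N ω).s| ≤ 2) ∨ (∀ ω, A ω → 2 ≤ |(z N ω).s|))) := by
  classical
  refine Clp.step ⟨1, fun J F _ => NLT i₀ N ⌊g * J⌋₊ (fun j => ⌊(u j : ℝ) * J⌋₊)
      (fun j => ⌊V j * J⌋₊) (fun j => ⌊T j * J⌋₊) (fun j => ⌊H j * J⌋₊) (fun j => ⌊G j * J⌋₊) F,
    fun J F _ => NLT.hered _ _ _ _ _ _ _ _ _⟩ fun κ hκ => ?_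
  obtain ⟨J₂, hJ₂⟩ := Pool.S6K.exp_small (κ := κ) (C := 2) hκ (by norm_num)
  refine Clp.mono (J₂ := J₂) (nl_adm hC hA N u V T H G hu hu0 hu1 hg hV hT hVT huT turn hR hH hG0
    hG1 hG2) ?_
  rintro J hJ F A ⟨iu, iN, e, n, z, h, h'⟩ hSb
  show NLT i₀ N ⌊g * J⌋₊ (fun j => ⌊(u j : ℝ) * J⌋₊)
      (fun j => ⌊V j * J⌋₊) (fun j => ⌊T j * J⌋₊) (fun j => ⌊H j * J⌋₊) (fun j => ⌊G j * J⌋₊) F A
  have hsum : Pe F.p A ≤ Pe F.p (fun ω => A ω ∧ |(z N ω).s| ≤ 2) +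
      Pe F.p (fun ω => A ω ∧ 2 ≤ |(z N ω).s|) := by
    rw [Pe_eq, Pe_eq, Pe_eq, ← Finset.sum_add_distrib]
    refine Finset.sum_le_sum fun ω _ => ?_
    have hp := F.isLaw.nonneg ω
    by_cases hω : A ω
    · rw [if_pos hω]
      rcases le_total |(z N ω).s| 2 with h1 | h1
      · rw [if_pos (⟨hω, h1⟩ : A ω ∧ |(z N ω).s| ≤ 2)]
        split_ifs <;> linarith
      · rw [if_pos (⟨hω, h1⟩ : A ω ∧ 2 ≤ |(z N ω).s|)]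
        split_ifs <;> linarith
    · rw [if_neg hω]
      split_ifs <;> linarith
  rcases le_total (Pe F.p (fun ω => A ω ∧ 2 ≤ |(z N ω).s|))
    (Pe F.p (fun ω => A ω ∧ |(z N ω).s| ≤ 2)) with h1 | h1
  · have hB : Sub (fun ω => A ω ∧ |(z N ω).s| ≤ 2) A := fun ω hω => hω.1
    exact Pool.S6K.stb_part (hSb 0) hB (by norm_num) (by linarith)
      (hJ₂ J hJ) (Pe_nonneg F.isLaw A)
      ⟨iu, iN, e, n, z, h.sub hB, fun j hj => (h' j hj).sub hB, Or.inl fun ω hω => hω.2⟩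
  · have hB : Sub (fun ω => A ω ∧ 2 ≤ |(z N ω).s|) A := fun ω hω => hω.1
    exact Pool.S6K.stb_part (hSb 0) hB (by norm_num) (by linarith)
      (hJ₂ J hJ) (Pe_nonneg F.isLaw A)
      ⟨iu, iN, e, n, z, h.sub hB, fun j hj => (h' j hj).sub hB, Or.inr fun ω hω => hω.2⟩

end Pool.RPL
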