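import Pool.Agent.H8.DPL.Lay
import Pool.Agent.H20.K2.CPY

/-!
# Lower bounds for laws of bounded density, explicit constants

(1) `dens_lo`: a law `μ ≤ C P`; if the conditional entropy is at least `b₀` for all events of
probability at least `p₀`, then it is at least `(1 - C / m - C p₀) b₀` for `μ`.
(2) `cpy_lo`: the second of two samples with a common label, conditionally on an event of the pair.
-/

set_option autoImplicit false

namespace Pool.RPL

open Finset Real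
open Pool.Agent.H49.Ent Pool.Agent.H32.Dense Pool.STK Pool.KA Pool.K2S
open Pool.DPL

theorem dens_lo {Ω S T : Type} [Fintype Ω] {P μ : Ω → ℝ} (hP : IsLaw P) (hμ : IsLaw μ) {C : ℝ}
    (hC : ∀ ω, μ ω ≤ C * P ω) {X : Ω → S} {Y : Ω → T} {b₀ p₀ : ℝ} (hb : 0 ≤ b₀) (hp : 0 ≤ p₀)
    (hE : ∀ E : Ω → Prop, p₀ ≤ Pe P E → 0 < Pe P E →
      b₀ ≤ CH (Pool.Agent.H49.Ent.cond P E True) X Y) {m : ℕ} (hm : 0 < m) :
    (1 - C / m - C * p₀) * b₀ ≤ CH μ X Y := by
  classical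
  have hm0 : (0 : ℝ) < m := by exact_mod_cast hm
  have hC0 : 0 ≤ C := by
    have h1 : ∑ ω, μ ω ≤ ∑ ω, C * P ω := Finset.sum_le_sum fun ω _ => hC ω
    rw [← Finset.mul_sum, hμ.sum_one, hP.sum_one] at h1
    linarith
  obtain ⟨a, ha⟩ : ∃ a, a = C / m := ⟨_, rfl⟩
  have ha0 : 0 ≤ a := ha ▸ by positivity
  have hma : (m : ℝ) * a = C := by rw [ha]; field_simp
  have hqn : ∀ ω, μ ω ≤ m * (a * P ω) := by
    intro ω
    rw [← mul_assoc, hma]
    exact hC ω
  obtain ⟨Q, hQ⟩ : ∃ Q, Q = lay P μ m a := ⟨_, rfl⟩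
  have hQ0 : ∀ w, 0 ≤ Q w := fun w => hQ ▸ lay_nonneg hP.nonneg hμ.nonneg m ha0 w
  have e1 : CH μ X Y = CH Q (fun w => X w.1) (fun w => Y w.1) := by
    rw [CH_marg]
    congr 1
    funext ω
    rw [hQ, lay_sum]
  have e2 : CH Q (fun w => X w.1) (fun w => (w.2, Y w.1)) ≤
      CH Q (fun w => X w.1) (fun w => Y w.1) :=
    CH_mono_cond hQ0 fun w w' _ _ h => (Prod.ext_iff.mp h).2
  have e4 := CH_slice Q X Y
  rw [Fintype.sum_option] at e4
  obtain ⟨m1, m2, m3⟩ := mass_lay hP hμ ha0 hqn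
  have e5 : 0 ≤ CH (fun ω => Q (ω, none)) X Y := CH_nonneg (fun ω => hQ0 (ω, none)) _ _
  have e6 : ∀ i : Fin m, a * Pe P (evl P μ a i) * b₀ - a * p₀ * b₀ ≤
      CH (fun ω => Q (ω, some i)) X Y := by
    intro i
    rw [hQ, CH_lay_some hP.nonneg ha0 i X Y]
    have hP0 : 0 ≤ Pe P (evl P μ a i) := law_nonneg hP.nonneg _ _
    have h4 : 0 ≤ a * p₀ * b₀ := mul_nonneg (mul_nonneg ha0 hp) hb
    have h6 : 0 ≤ a * Pe P (evl P μ a i) *
        CH (Pool.Agent.H49.Ent.cond P (evl P μ a i) True) X Y :=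
      mul_nonneg (mul_nonneg ha0 hP0) (CH_nonneg (cond_nonneg hP.nonneg _ _) _ _)
    rcases hP0.eq_or_lt with h0 | h0
    · rw [← h0] at h6 ⊢
      simp only [mul_zero, zero_mul] at h6 ⊢
      linarith
    by_cases h1 : p₀ ≤ Pe P (evl P μ a i)
    · have h2 := hE _ h1 h0
      have h3 := mul_le_mul_of_nonneg_left h2 (mul_nonneg ha0 hP0)
      linarith
    · push Not at h1
      have h5 : a * Pe P (evl P μ a i) * b₀ ≤ a * p₀ * b₀ :=
        mul_le_mul_of_nonneg_right (mul_le_mul_of_nonneg_left h1.le ha0) hb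
      linarith
  have e7 := Finset.sum_le_sum fun (i : Fin m) (_ : i ∈ Finset.univ) => e6 i
  rw [Finset.sum_sub_distrib, ← Finset.sum_mul, m1, Finset.sum_const, Finset.card_univ,
    Fintype.card_fin, nsmul_eq_mul] at e7
  have e8 : (m : ℝ) * (a * p₀ * b₀) = C * p₀ * b₀ := by rw [← hma]; ring
  rw [e8] at e7
  have e9 : (1 - a) * b₀ ≤ (1 - ∑ ω, lay P μ m a (ω, none)) * b₀ :=
    mul_le_mul_of_nonneg_right (by linarith) hb
  rw [e1, ← ha]
  have e10 : (1 - a - C * p₀) * b₀ = (1 - a) * b₀ - C * p₀ * b₀ := by ring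
  rw [e10]
  linarith

/-- The second sample, conditionally on an event of the pair of samples. -/
theorem cpy_lo {Ω G S T : Type} [Fintype Ω] {P : Ω → ℝ} (hP : IsLaw P) (g : Ω → G)
    {E : Ω × Ω → Prop} {v₀ b₀ : ℝ} (hv : 0 < v₀) (hE : v₀ ≤ Pe (cpy P g) E) (hb : 0 ≤ b₀)
    {X : Ω → S} {Y : Ω → T}
    (h : ∀ E' : Ω → Prop, v₀ / 4 ≤ Pe P E' →
      b₀ ≤ CH (Pool.Agent.H49.Ent.cond P E' True) X Y) :
    b₀ / 2 ≤ CH (Pool.Agent.H49.Ent.cond (cpy P g) E True) (fun w => X w.2) (fun w => Y w.2) := by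
  classical
  obtain ⟨hQ, -, hQs, -, -, -⟩ := cpy_thm Ω G P hP g
  have hPe : 0 < Pe (cpy P g) E := hv.trans_le hE
  have hcl := cond_law hQ hPe
  obtain ⟨Qc, hQc⟩ : ∃ Qc, Qc = Pool.Agent.H49.Ent.cond (cpy P g) E True := ⟨_, rfl⟩
  rw [← hQc] at hcl ⊢
  -- the marginal
  obtain ⟨μ, hμ⟩ : ∃ μ : Ω → ℝ, μ = fun ω => ∑ w, if w.2 = ω then Qc w else 0 := ⟨_, rfl⟩
  have hμl : IsLaw μ := by
    constructor
    · intro ω
      rw [hμ]
      refine Finset.sum_nonneg fun w _ => ?_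
      split_ifs
      · exact hcl.nonneg w
      · exact le_rfl
    · rw [hμ]
      show ∑ ω, (∑ w : Ω × Ω, if w.2 = ω then Qc w else 0) = 1
      rw [Finset.sum_comm, ← hcl.sum_one]
      refine Finset.sum_congr rfl fun w _ => ?_
      rw [Finset.sum_ite_eq]
      simp
  have hle : ∀ ω, μ ω ≤ 1 / v₀ * P ω := by
    intro ω
    rw [← hQs ω, hμ, Finset.mul_sum]
    refine Finset.sum_le_sum fun w _ => ?_
    by_cases h1 : w.2 = ω
    · rw [if_pos h1, if_pos h1, hQc]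
      unfold Pool.Agent.H49.Ent.cond
      split_ifs with h2
      · rw [div_eq_inv_mul, one_div]
        exact mul_le_mul_of_nonneg_right (inv_anti₀ hv hE) (hQ.nonneg w)
      · exact mul_nonneg (by positivity) (hQ.nonneg w)
    · rw [if_neg h1, if_neg h1, mul_zero]
  have hCH : CH Qc (fun w => X w.2) (fun w => Y w.2) = CH μ X Y := by
    unfold CH
    have h1 := H_eq_of_marginal (q := Qc) (p := μ) Prod.snd
      (fun ω => by rw [hμ]) (fun ω => (X ω, Y ω))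
    have h2 := H_eq_of_marginal (q := Qc) (p := μ) Prod.snd (fun ω => by rw [hμ]) Y
    rw [h1, h2]
  rw [hCH]
  obtain ⟨m, hm⟩ := exists_nat_ge (4 / v₀)
  have hm0 : (0 : ℝ) < m := (by positivity : (0 : ℝ) < 4 / v₀).trans_le hm
  have key := dens_lo hP hμl hle hb (p₀ := v₀ / 4) (by positivity)
    (fun E' h1 _ => h E' h1) (m := m) (by exact_mod_cast hm0)
  refine le_trans ?_ key
  have e1 : 1 / v₀ / m ≤ 1 / 4 := by
    rw [div_le_iff₀ hm0, div_le_iff₀ hv]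
    rw [div_le_iff₀ hv] at hm
    linarith
  have e2 : 1 / v₀ * (v₀ / 4) = 1 / 4 := by field_simp
  rw [e2]
  nlinarith

end Pool.RPL
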